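import Pool.Agent.Helper91_Pack.T6

/-!
# T7: tests for the cells of a block
-/

namespace Pool.Agent.Helper91_Pack

open Pool.Agent.Helper2_Pack Pool.Agent.Helper53_CookLevin Pool.Agent.Helper53_Chan

variable {k : ℕ}

theorem runs_snoc (c : SLetter) : ∀ (w : List SLetter) (j : ℕ),
    runsAux j (w ++ [c]) = runsAux j w ++
      (if c = .sep then [w.foldl (fun k c => if c = .tick then k + 1 else 0) j] else [])
  | [], j => by cases c <;> rfl
  | a :: w, j => by
    rw [List.cons_append]
    cases a
    · rw [runsAux, runsAux, runs_snoc c w (j + 1)]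
      rfl
    · rw [runsAux, runsAux, runs_snoc c w 0]
      rfl
    all_goals
      rw [runsAux, runsAux, runs_snoc c w 0]
      · rfl
      all_goals simp

theorem runs_length (w : List SLetter) : (runsAux 0 w).length = ct (· == .sep) w := by
  induction w using List.reverseRecOn with
  | nil => rfl
  | append_singleton w c ih =>
    rw [runs_snoc, List.length_append, ih, ct_snoc]
    congr 1
    cases c <;> rfl

theorem SG.runsLen {v : (Fin k → List CL) → List SLetter} (hv : SG k v) :
    NG k (fun ρ => (runsAux 0 (v ρ)).length) :=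
  NG.congr (SG.ct hv (· == .sep)) (fun _ => (runs_length _).symm)

theorem SG.run {v : (Fin k → List CL) → List SLetter} (hv : SG k v)
    {t : (Fin k → List CL) → ℕ} (ht : NG k t) :
    NG k (fun ρ => (runsAux 0 (v ρ)).getD (t ρ) 0) := by
  classical
  have h1 : ∀ c : CL, PGen (k + 1) (fun ρ : Fin (k + 1) → List CL =>
      if c = Sum.inl .sep ∧ Helper53_Chan.cnt (exS (· == .sep)) (ρ 0) = t (ρ ∘ Fin.succ) then
        List.replicate (Helper53_Chan.tr uu (ρ 0)) uu else []) := by
    intro c
    refine Test.ite (Test.and (tconst _) ?_) ?_ (PGen.const _)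
    · exact teq (PGen.cnt (exS (· == .sep)) uu (PGen.var 0)) (NG.up ht)
    · exact PGen.tr uu uu (PGen.var 0)
  refine PGen.congr (SG.loop hv (K := fun c p ρ =>
    if c = Sum.inl .sep ∧ Helper53_Chan.cnt (exS (· == .sep)) p = t ρ then
        List.replicate (Helper53_Chan.tr uu p) uu else []) h1) (fun ρ => ?_)
  beta_reduce
  generalize v ρ = w
  generalize t ρ = b
  induction w using List.reverseRecOn with
  | nil => simp [sc, runsAux]
  | append_singleton w c ih =>
    rw [sc_snoc, ih, runs_snoc, cnt_map_inl, tr_map_inl]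
    by_cases hc : c = .sep
    · subst hc
      rw [if_pos rfl, ← runs_length]
      rcases lt_trichotomy (runsAux 0 w).length b with h | h | h
      · rw [if_neg (by simp; omega), List.append_nil, List.getD_eq_default _ _ (by omega),
          List.getD_eq_default _ _ (by simp; omega)]
      · rw [if_pos ⟨rfl, h⟩, List.getD_eq_default _ _ (by omega),
          List.getD_append_right _ _ _ _ (by omega), h, Nat.sub_self]
        simp
      · rw [if_neg (by simp; omega), List.append_nil, List.getD_append _ _ _ _ (by omega)]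
    · rw [if_neg (by simp [hc]), if_neg hc, List.append_nil, List.append_nil]

theorem SG.last {v : (Fin k → List CL) → List SLetter} (hv : SG k v) :
    FG k (fun ρ => (v ρ).getLast?) :=
  FG.congr (FG.map (fun o : Option CL => o.bind Sum.getLeft?) (FG.last hv)) (fun ρ => by
    rw [List.getLast?_map]
    cases (v ρ).getLast? <;> rfl)

theorem mem_iff_getD (l : List ℕ) (i : ℕ) : i ∈ l ↔ ∃ t < l.length, l.getD t 0 = i := by
  constructor
  · intro h
    obtain ⟨t, ht, rfl⟩ := List.mem_iff_getElem.1 h
    exact ⟨t, ht, List.getD_eq_getElem _ _ ht⟩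
  · rintro ⟨t, ht, rfl⟩
    rw [List.getD_eq_getElem _ _ ht]
    exact List.getElem_mem ht

/-- tests for the devices in the first active column -/
theorem first_iff (w : List SLetter) (P : ℕ → Bool) : (conOf w).first.any P = true ↔
    (w.getLast? = some .inv ∧ P ((runsAux 0 w).getD 0 0) = true) ∨
    (¬ w.getLast? = some .inv ∧ ∃ t < (runsAux 0 w).length, P ((runsAux 0 w).getD t 0) = true) := by
  have h : (runsAux 0 w).any P = true ↔
      ∃ t < (runsAux 0 w).length, P ((runsAux 0 w).getD t 0) = true := by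
    rw [List.any_eq_true]
    constructor
    · rintro ⟨i, hi, hP⟩
      obtain ⟨t, ht, rfl⟩ := (mem_iff_getD _ _).1 hi
      exact ⟨t, ht, hP⟩
    · rintro ⟨t, ht, hP⟩
      exact ⟨_, (mem_iff_getD _ _).2 ⟨t, ht, rfl⟩, hP⟩
  rw [← h]
  unfold conOf
  rcases w.getLast? with _ | a
  · simp [Con.first]
  · cases a <;> simp [Con.first]

/-- tests for the devices in the second active column -/
theorem second_iff (w : List SLetter) (P : ℕ → Bool) : (conOf w).second.any P = true ↔
    (w.getLast? = some .inv ∧ P ((runsAux 0 w).getD 1 0) = true) := by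
  unfold conOf
  rcases w.getLast? with _ | a
  · simp [Con.second]
  · cases a <;> simp [Con.second]

theorem SG.first {u : (Fin k → List CL) → List SLetter} (hu : SG k u)
    (P : ℕ → (Fin k → List CL) → Prop) [∀ i ρ, Decidable (P i ρ)]
    (hP : ∀ (k' : ℕ) (f : (Fin k' → List CL) → (Fin k → List CL)) (i : (Fin k' → List CL) → ℕ),
      (∀ F, PGen k F → PGen k' (fun ρ => F (f ρ))) → NG k' i → Test k' (fun ρ => P (i ρ) (f ρ))) :
    Test k (fun ρ => (conOf (u ρ)).first.any (fun i => decide (P i ρ)) = true) := by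
  have h1 : Test k (fun ρ => (u ρ).getLast? = some .inv) :=
    Test.congr (FG.test (FG.map (fun o => decide (o = some SLetter.inv)) (SG.last hu)))
      (fun ρ => by rw [decide_eq_true_eq])
  have h2 : Test k (fun ρ => P ((runsAux 0 (u ρ)).getD 0 0) ρ) :=
    hP k id _ (fun _ h => h) (SG.run hu (NG.const 0))
  have h3 : Test (k + 1) (fun ρ : Fin (k + 1) → List CL =>
      P ((runsAux 0 (u (ρ ∘ Fin.succ))).getD (ρ 0).length 0) (ρ ∘ Fin.succ)) :=
    hP (k + 1) (fun ρ => ρ ∘ Fin.succ) _ (fun _ h => pup h) (SG.run (SG.up hu) NG.len0)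
  refine Test.congr (tor (Test.and h1 h2) (Test.and (tnot h1)
    (tex (SG.runsLen hu) (P := fun t ρ => P ((runsAux 0 (u ρ)).getD t 0) ρ) h3))) (fun ρ => ?_)
  rw [first_iff]
  simp only [decide_eq_true_eq]

theorem SG.second {u : (Fin k → List CL) → List SLetter} (hu : SG k u)
    (P : ℕ → (Fin k → List CL) → Prop) [∀ i ρ, Decidable (P i ρ)]
    (hP : ∀ i : (Fin k → List CL) → ℕ, NG k i → Test k (fun ρ => P (i ρ) ρ)) :
    Test k (fun ρ => (conOf (u ρ)).second.any (fun i => decide (P i ρ)) = true) := by
  have h1 : Test k (fun ρ => (u ρ).getLast? = some .inv) :=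
    Test.congr (FG.test (FG.map (fun o => decide (o = some SLetter.inv)) (SG.last hu)))
      (fun ρ => by rw [decide_eq_true_eq])
  refine Test.congr (Test.and h1 (hP _ (SG.run hu (NG.const 1)))) (fun ρ => ?_)
  rw [second_iff]
  simp only [decide_eq_true_eq]

/-- T7 -/
theorem t7 : T7Stmt := by
  intro k u n o r hu hn ho hr
  constructor
  · have h1 : Test k (fun ρ => (conOf (u ρ)).first.any
        (fun i => decide (o ρ = r ρ + 2 * i)) = true) :=
      SG.first hu (fun i ρ => o ρ = r ρ + 2 * i) (fun k' f i hf hi =>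
        teq (hf _ ho) (NG.add (hf _ hr) (NG.mul (NG.const 2) hi)))
    have h2 : Test k (fun ρ => (conOf (u ρ)).second.any
        (fun i => decide (o ρ = r ρ + (2 * i + 1))) = true) :=
      SG.second hu (fun i ρ => o ρ = r ρ + (2 * i + 1)) (fun i hi =>
        teq ho (NG.add hr (NG.add (NG.mul (NG.const 2) hi) (NG.const 1))))
    refine Test.congr (tor (Test.and (tlt ho (NG.mul (NG.const 2) hn)) h1)
      (Test.and (tlt ho (NG.add (NG.mul (NG.const 2) hn) (NG.const 1))) h2)) (fun ρ => ?_)
    unfold dcell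
    rw [Bool.or_eq_true, Bool.and_eq_true, Bool.and_eq_true, decide_eq_true_eq, decide_eq_true_eq]
  · have h1 : Test k (fun ρ => (conOf (u ρ)).first.any
        (fun i => decide (2 * n ρ ≤ r ρ + 2 * i)) = true) :=
      SG.first hu (fun i ρ => 2 * n ρ ≤ r ρ + 2 * i) (fun k' f i hf hi =>
        tle (NG.mul (NG.const 2) (hf _ hn)) (NG.add (hf _ hr) (NG.mul (NG.const 2) hi)))
    have h2 : Test k (fun ρ => (conOf (u ρ)).second.any
        (fun i => decide (2 * n ρ ≤ r ρ + 2 * i)) = true) :=
      SG.second hu (fun i ρ => 2 * n ρ ≤ r ρ + 2 * i) (fun i hi =>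
        tle (NG.mul (NG.const 2) hn) (NG.add hr (NG.mul (NG.const 2) hi)))
    refine Test.congr (tor (Test.and (teq ho (NG.mul (NG.const 2) hn)) h1)
      (Test.and (teq ho (NG.add (NG.mul (NG.const 2) hn) (NG.const 1))) h2)) (fun ρ => ?_)
    unfold vcell
    rw [Bool.or_eq_true, Bool.and_eq_true, Bool.and_eq_true, decide_eq_true_eq, decide_eq_true_eq]

end Pool.Agent.Helper91_Pack
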