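import Pool.Agent.Helper2_Pack.StmtsT

/-!
# T1: the binary digits of a coordinate
-/

namespace Pool.Agent.Helper91_Pack

open Pool.Agent.Helper2_Pack

theorem fixW_succ (n k : ℕ) : fixW (n + 1) k = (if k.testBit 0 then .one else .zero) ::
    fixW n (k / 2) := by
  unfold fixW
  rw [List.range_succ_eq_map, List.map_cons, List.map_map]
  congr 1
  apply List.map_congr_left
  intro i _
  simp only [Function.comp_apply, Nat.succ_eq_add_one, Nat.testBit_succ]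

theorem bits_two (x : ℕ) (hx : 0 < x) : bits x =
    (if x.testBit 0 then .one else .zero) :: bits (x / 2) := by
  unfold bits
  rw [Nat.digits_def' (by norm_num) hx, List.map_cons]
  congr 1
  rw [Nat.testBit_zero]
  rcases Nat.mod_two_eq_zero_or_one x with h | h <;> simp [h]

theorem bits_add (r : ℕ) (hr : 0 < r) : ∀ (n k : ℕ), k < 2 ^ n →
    bits (k + 2 ^ n * r) = fixW n k ++ bits r
  | 0, k, h => by
    have : k = 0 := by simpa using h
    subst this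
    simp [fixW]
  | n + 1, k, h => by
    rw [fixW_succ, List.cons_append, ← bits_add r hr n (k / 2) (by
      rw [pow_succ] at h
      omega)]
    have h1 : 0 < 2 ^ (n + 1) * r := by positivity
    rw [bits_two _ (by omega)]
    have h2 : k + 2 ^ (n + 1) * r = k + 2 * (2 ^ n * r) := by ring
    rw [h2]
    congr 1
    · rw [Nat.testBit_zero, Nat.testBit_zero, Nat.add_mul_mod_self_left]
    · congr 1
      omega

theorem fixW_zero (n : ℕ) : fixW n 0 = List.replicate n .zero := by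
  unfold fixW
  rw [List.eq_replicate_iff]
  refine ⟨by simp, ?_⟩
  intro b hb
  obtain ⟨i, _, rfl⟩ := List.mem_map.1 hb
  simp

theorem bits_mul (r : ℕ) (hr : 0 < r) (n : ℕ) : bits (2 ^ n * r) =
    List.replicate n .zero ++ bits r := by
  have h := bits_add r hr n 0 (by positivity)
  rwa [Nat.zero_add, fixW_zero] at h

/-- the numerator -/
def numD (m : ℕ) (d : Dsc) : ℕ :=
  1 + 2 ^ 1 * (2 ^ (m - 1) * (d.k4 + 2 ^ 5 * (2 ^ (m - 5) * (d.k3 + 2 ^ 5 * (2 ^ (2 * m - 10) *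
    ((32 * d.k1 + d.a2) + 2 ^ 10 * (2 ^ (m - 10) * (d.a + 2 ^ 5 * d.c))))))))

theorem bits_num (m : ℕ) (d : Dsc) (h : d.OK) : bits (numD m d) = [.one] ++
    List.replicate (m - 1) .zero ++ fixW 5 d.k4 ++ List.replicate (m - 5) .zero ++
    fixW 5 d.k3 ++ List.replicate (2 * m - 10) .zero ++ fixW 10 (32 * d.k1 + d.a2) ++
    List.replicate (m - 10) .zero ++ fixW 5 d.a ++ bits d.c := by
  obtain ⟨h1, h2, h3, h4, h5, h6⟩ := h
  have p1 : 0 < d.a + 2 ^ 5 * d.c := by positivity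
  have p2 : 0 < 2 ^ (m - 10) * (d.a + 2 ^ 5 * d.c) := by positivity
  have p3 : 0 < (32 * d.k1 + d.a2) + 2 ^ 10 * (2 ^ (m - 10) * (d.a + 2 ^ 5 * d.c)) := by
    positivity
  have p4 : 0 < 2 ^ (2 * m - 10) *
    ((32 * d.k1 + d.a2) + 2 ^ 10 * (2 ^ (m - 10) * (d.a + 2 ^ 5 * d.c))) := by positivity
  have p5 : 0 < d.k3 + 2 ^ 5 * (2 ^ (2 * m - 10) *
    ((32 * d.k1 + d.a2) + 2 ^ 10 * (2 ^ (m - 10) * (d.a + 2 ^ 5 * d.c)))) := by positivity
  have p6 : 0 < 2 ^ (m - 5) * (d.k3 + 2 ^ 5 * (2 ^ (2 * m - 10) *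
    ((32 * d.k1 + d.a2) + 2 ^ 10 * (2 ^ (m - 10) * (d.a + 2 ^ 5 * d.c))))) := by positivity
  have p7 : 0 < d.k4 + 2 ^ 5 * (2 ^ (m - 5) * (d.k3 + 2 ^ 5 * (2 ^ (2 * m - 10) *
    ((32 * d.k1 + d.a2) + 2 ^ 10 * (2 ^ (m - 10) * (d.a + 2 ^ 5 * d.c)))))) := by positivity
  have p8 : 0 < 2 ^ (m - 1) * (d.k4 + 2 ^ 5 * (2 ^ (m - 5) * (d.k3 + 2 ^ 5 * (2 ^ (2 * m - 10) *
    ((32 * d.k1 + d.a2) + 2 ^ 10 * (2 ^ (m - 10) * (d.a + 2 ^ 5 * d.c))))))) := by positivity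
  unfold numD
  rw [bits_add _ p8 1 1 (by norm_num), bits_mul _ p7, bits_add _ p6 5 _ (by omega), bits_mul _ p5,
    bits_add _ p4 5 _ (by omega), bits_mul _ p3, bits_add _ p2 10 _ (by omega), bits_mul _ p1,
    bits_add _ (by omega) 5 _ (by omega)]
  simp only [List.append_assoc]
  rfl

theorem num_val (m : ℕ) (d : Dsc) (hm : 60 ≤ m) :
    d.val m = ((numD m d : ℤ) : ℚ) / ((2 ^ (5 * m) : ℤ) : ℚ) := by
  obtain ⟨s, rfl⟩ : ∃ s, m = s + 60 := ⟨m - 60, by omega⟩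
  have e1 : s + 60 - 1 = s + 59 := by omega
  have e2 : s + 60 - 5 = s + 55 := by omega
  have e3 : 2 * (s + 60) - 10 = 2 * s + 110 := by omega
  have e4 : s + 60 - 10 = s + 50 := by omega
  unfold numD Dsc.val qq
  rw [e1, e2, e3, e4]
  push_cast
  rw [eq_div_iff (by positivity)]
  have h2 : ((1 : ℚ) / 2) ^ (s + 60) = 1 / (2 ^ s * 2 ^ 60) := by
    rw [one_div_pow, pow_add]
  have h3 : (2 : ℚ) ^ (5 * (s + 60)) = (2 ^ s) ^ 5 * 2 ^ 300 := by ring
  have h4 : (2 : ℚ) ^ (s + 59) = 2 ^ s * 2 ^ 59 := by rw [pow_add]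
  have h5 : (2 : ℚ) ^ (s + 55) = 2 ^ s * 2 ^ 55 := by rw [pow_add]
  have h6 : (2 : ℚ) ^ (2 * s + 110) = (2 ^ s) ^ 2 * 2 ^ 110 := by ring
  have h7 : (2 : ℚ) ^ (s + 50) = 2 ^ s * 2 ^ 50 := by rw [pow_add]
  rw [h2, h3, h4, h5, h6, h7]
  have h8 : (2 : ℚ) ^ s ≠ 0 := by positivity
  field_simp
  ring

/-- T1 -/
theorem t1 : T1Stmt := by
  intro m d hm hd
  have hnum := bits_num m d hd
  have h1 : numD m d = 1 + 2 * (2 ^ (m - 1) * (d.k4 + 2 ^ 5 * (2 ^ (m - 5) * (d.k3 + 2 ^ 5 *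
    (2 ^ (2 * m - 10) * ((32 * d.k1 + d.a2) + 2 ^ 10 * (2 ^ (m - 10) *
      (d.a + 2 ^ 5 * d.c)))))))) := by
    unfold numD
    rw [pow_one]
  have hodd : (numD m d) % 2 = 1 := by
    rw [h1]
    omega
  have hco : Nat.Coprime ((numD m d : ℤ)).natAbs ((2 ^ (5 * m) : ℤ)).natAbs := by
    rw [Int.natAbs_natCast, Int.natAbs_pow]
    exact (Nat.coprime_pow_right_iff (by omega) _ _).2 (Nat.coprime_two_right.2
      (Nat.odd_iff.2 hodd))
  have hn : (d.val m).num = (numD m d : ℤ) := by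
    rw [num_val m d hm]
    exact Rat.num_div_eq_of_coprime (by positivity) hco
  have hden : (d.val m).den = 2 ^ (5 * m) := by
    rw [num_val m d hm]
    have := Rat.den_div_eq_of_coprime (a := (numD m d : ℤ)) (b := (2 ^ (5 * m) : ℤ))
      (by positivity) hco
    exact_mod_cast this
  unfold encRat
  rw [hn, hden, if_neg (by omega), Int.natAbs_natCast, hnum]
  have h2 := bits_mul 1 one_pos (5 * m)
  rw [Nat.mul_one] at h2
  rw [h2]
  have h3 : bits 1 = [.one] := by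
    rw [bits_two 1 one_pos]
    simp [bits]
  rw [h3]
  unfold Dsc.word
  simp only [List.append_assoc, List.cons_append, List.nil_append]

end Pool.Agent.Helper91_Pack
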