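import Pool.Agent.Helper91_Pack.LayGen

/-!
# T10: the word of the container
-/

namespace Pool.Agent.Helper91_Pack

open Pool.Agent.Helper2_Pack Pool.Agent.Helper53_CookLevin Pool.Agent.Helper53_Chan

variable {k : ℕ} {m : (Fin k → List CL) → ℕ}

/-- the shifted pairs -/
def shL (e f : ℕ) (l : List (Dsc × Dsc)) : List (Dsc × Dsc) :=
  l.map fun d => (d.1.sh e, d.2.sh f)

theorem WG.sh1 (h4 : T4Stmt) (hm : NG k m) {e f : (Fin k → List CL) → ℕ} (he : NG k e)
    (hf : NG k f) (d d' : Dsc) : WG k m (fun ρ => [(d.sh (e ρ), d'.sh (f ρ))]) :=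
  WG.list h4 hm he hf [(d, d')]

/-- the floor, from the word of the system -/
def floorW (fD : Col → List (Dsc × Dsc)) (w : List SLetter) : List (Dsc × Dsc) :=
  (List.range (sysOfWord w).layout.M).flatMap (fun c => shL c 0 (fD (tyW w c 0).bot))

theorem wg_floor (h4 : T4Stmt) (h6 : T6Stmt) (h7 : T7Stmt) (hm : NG k m)
    (fD : Col → List (Dsc × Dsc)) {v : (Fin k → List CL) → List SLetter} (hv : SG k v) :
    WG k m (fun ρ => floorW fD (v ρ)) := by
  refine WG.loop (ng_M h6 hv) (K := fun c ρ => shL c 0 (fD (tyW (v ρ) c 0).bot)) ?_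
  exact WG.fg (FG.map Tile.bot (fg_ty h6 h7 (SG.up hv) NG.len0 (NG.const 0)))
    (L := fun a ρ => shL (ρ 0).length 0 (fD a))
    (fun a => WG.list h4 (NG.up hm) NG.len0 (NG.const 0) (fD a))

/-- the reversed ceiling, from the word of the system -/
def ceilW (cD : Top → List (Dsc × Dsc)) (w : List SLetter) : List (Dsc × Dsc) :=
  ((List.range (sysOfWord w).layout.M).flatMap (fun c =>
    shL c (sysOfWord w).layout.N (cD (topW w c)))).reverse

theorem wg_ceil (h4 : T4Stmt) (h6 : T6Stmt) (hm : NG k m)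
    (cD : Top → List (Dsc × Dsc)) {v : (Fin k → List CL) → List SLetter} (hv : SG k v) :
    WG k m (fun ρ => ceilW cD (v ρ)) := by
  refine WG.revLoop (ng_M h6 hv)
    (K := fun c ρ => shL c (sysOfWord (v ρ)).layout.N (cD (topW (v ρ) c))) ?_
  have hc := NG.sub (NG.sub (NG.up (ng_M h6 hv)) (NG.const 1)) NG.len0
  refine WG.congr (WG.fg (fg_top h6 (SG.up hv) hc)
    (L := fun a ρ => (cD a).reverse.map (fun d =>
      (d.1.sh ((sysOfWord (v (ρ ∘ Fin.succ))).layout.M - 1 - (ρ 0).length),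
        d.2.sh (sysOfWord (v (ρ ∘ Fin.succ))).layout.N)))
    (fun a => WG.list h4 (NG.up hm) hc (NG.up (ng_N h6 hv)) (cD a).reverse)) (fun ρ => ?_)
  unfold shL
  rw [List.map_reverse]

/-- the right wall -/
def rightW (w : List SLetter) : List (Dsc × Dsc) :=
  (List.range (nOf w)).flatMap (fun i : ℕ =>
    shL (sysOfWord w).layout.M (2 * i) [(oD, oD.sh 1), (rD, oD.sh 1), (rD, oD.sh 2), (oD, oD.sh 2)])

theorem wg_right (h4 : T4Stmt) (h6 : T6Stmt) (hm : NG k m)
    {v : (Fin k → List CL) → List SLetter} (hv : SG k v) :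
    WG k m (fun ρ => rightW (v ρ)) := by
  refine WG.loop (ng_nOf h6 hv) (K := fun i ρ => shL (sysOfWord (v ρ)).layout.M (2 * i)
    [(oD, oD.sh 1), (rD, oD.sh 1), (rD, oD.sh 2), (oD, oD.sh 2)]) ?_
  exact WG.list h4 (NG.up hm) (NG.up (ng_M h6 hv)) (NG.mul (NG.const 2) NG.len0) _

/-- the reversed left wall -/
def leftW (w : List SLetter) : List (Dsc × Dsc) :=
  ((List.range (nOf w)).flatMap (fun i : ℕ =>
    shL 0 (2 * i) [(oD, oD.sh 1), (lD, oD.sh 1), (lD, oD.sh 2), (oD, oD.sh 2)])).reverse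

theorem wg_left (h4 : T4Stmt) (h6 : T6Stmt) (hm : NG k m)
    {v : (Fin k → List CL) → List SLetter} (hv : SG k v) :
    WG k m (fun ρ => leftW (v ρ)) := by
  refine WG.revLoop (ng_nOf h6 hv) (K := fun i _ => shL 0 (2 * i)
    [(oD, oD.sh 1), (lD, oD.sh 1), (lD, oD.sh 2), (oD, oD.sh 2)]) ?_
  refine WG.congr (WG.list h4 (NG.up hm) (NG.const 0) (NG.mul (NG.const 2)
    (NG.sub (NG.sub (NG.up (ng_nOf h6 hv)) (NG.const 1)) NG.len0))
    [(oD, oD.sh 1), (lD, oD.sh 1), (lD, oD.sh 2), (oD, oD.sh 2)].reverse) (fun ρ => ?_)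
  unfold shL
  rw [List.map_reverse]

theorem sh_sh (a b : ℕ) (d : Dsc) : (d.sh a).sh b = d.sh (b + a) := by
  unfold Dsc.sh
  simp only [Dsc.mk.injEq, and_true]
  omega

theorem sh_zero (d : Dsc) : d.sh 0 = d := rfl

theorem contD_eq (fD : Col → List (Dsc × Dsc)) (cD : Top → List (Dsc × Dsc)) (w : List SLetter) :
    contD fD cD (sysOfWord w).layout = [(oD.sh 0, oD.sh 0)] ++ floorW fD w ++
      [(oD.sh (sysOfWord w).layout.M, oD.sh 0)] ++ rightW w ++
      ([(oD.sh (sysOfWord w).layout.M, oD.sh (sysOfWord w).layout.N)] ++ ceilW cD w) ++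
      leftW w := by
  unfold contD
  have h1 : (List.range (sysOfWord w).layout.M).flatMap (fun c : ℕ =>
      (fD ((sysOfWord w).layout.ty c 0).bot).map fun d => (d.1.sh c, d.2)) = floorW fD w := by
    unfold floorW shL
    refine List.flatMap_congr (fun c hc => ?_)
    rw [ty_eq w c 0 (List.mem_range.1 hc)]
    rfl
  have h2 : ((List.range (sysOfWord w).layout.M).flatMap (fun c : ℕ =>
      (cD ((sysOfWord w).layout.top c)).map fun d =>
        (d.1.sh c, d.2.sh (sysOfWord w).layout.N))).reverse = ceilW cD w := by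
    unfold ceilW shL
    congr 1
    refine List.flatMap_congr (fun c hc => ?_)
    rw [top_eq w c (List.mem_range.1 hc)]
  have h3 : (List.range (sysOfWord w).layout.n).flatMap (fun i : ℕ =>
      [(oD.sh (sysOfWord w).layout.M, oD.sh (2 * i + 1)),
        (rD.sh (sysOfWord w).layout.M, oD.sh (2 * i + 1)),
        (rD.sh (sysOfWord w).layout.M, oD.sh (2 * i + 2)),
        (oD.sh (sysOfWord w).layout.M, oD.sh (2 * i + 2))]) = rightW w := by
    unfold rightW shL
    refine List.flatMap_congr (fun i hi => ?_)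
    simp only [List.map_cons, List.map_nil, sh_sh]
  have h4 : ((List.range (sysOfWord w).layout.n).flatMap (fun i : ℕ =>
      [(oD, oD.sh (2 * i + 1)), (lD, oD.sh (2 * i + 1)), (lD, oD.sh (2 * i + 2)),
        (oD, oD.sh (2 * i + 2))])).reverse = leftW w := by
    unfold leftW shL
    congr 1
    refine List.flatMap_congr (fun i hi => ?_)
    simp only [List.map_cons, List.map_nil, sh_sh, sh_zero]
  rw [h1, h3, h4, List.reverse_append, h2]
  rfl

/-- T10 -/
theorem t10 (h4 : T4Stmt) (h6 : T6Stmt) (h7 : T7Stmt) : T10Stmt := by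
  intro fD cD
  have hv := sg_first
  have hm := ng_mOf
  have h0 : NG 1 (fun _ : Fin 1 → List CL => 0) := NG.const 0
  have hM := ng_M h6 hv
  have hN := ng_N h6 hv
  have h := WG.append (WG.append (WG.append (WG.append (WG.append
    (WG.sh1 h4 hm h0 h0 oD oD) (wg_floor h4 h6 h7 hm fD hv)) (WG.sh1 h4 hm hM h0 oD oD))
    (wg_right h4 h6 hm hv)) (WG.append (WG.sh1 h4 hm hM hN oD oD) (wg_ceil h4 h6 hm cD hv)))
    (wg_left h4 h6 hm hv)
  refine PGen.congr (LG.append h (LG.const [.stop])) (fun ρ => ?_)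
  unfold sysAt
  rw [contD_eq]
  rfl

end Pool.Agent.Helper91_Pack
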