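import Pool.Agent.Helper91_Pack.LayGen

/-!
# T11: the words of the pieces
-/

namespace Pool.Agent.Helper91_Pack

open Pool.Agent.Helper2_Pack Pool.Agent.Helper53_CookLevin Pool.Agent.Helper53_Chan

variable {k : ℕ} {m : (Fin k → List CL) → ℕ}

theorem LG.dWord (h4 : T4Stmt) (hm : NG k m) (l : List (Dsc × Dsc)) :
    LG k (fun ρ => dWord (m ρ) l) := by
  refine PGen.congr (LG.append (WG.list h4 hm (NG.const 0) (NG.const 0) l) (LG.const [.stop]))
    (fun ρ => ?_)
  have : (fun d : Dsc × Dsc => (d.1.sh 0, d.2.sh 0)) = id := rfl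
  beta_reduce
  rw [this, List.map_id]
  rfl

/-- the letters of the lever in the column `c` -/
def lvW (m : ℕ) (sD : Shp → List (Dsc × Dsc)) (t : Top) : List Letter :=
  if t.isL then dWord m (sD (.lever t.sig)) else []

theorem shapes_eq (sD : Shp → List (Dsc × Dsc)) (m : ℕ) (w : List SLetter) :
    ((sysOfWord w).layout.shapes.flatMap fun s => dWord m (sD s)) =
      (List.range (sysOfWord w).layout.M).flatMap (fun c =>
        (List.range (sysOfWord w).layout.N).flatMap (fun r => dWord m (sD (.tile (tyW w c r)))) ++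
        lvW m sD (topW w c)) := by
  unfold Layout.shapes
  rw [List.flatMap_assoc]
  refine List.flatMap_congr (fun c hc => ?_)
  have hc' := List.mem_range.1 hc
  rw [List.flatMap_append, List.flatMap_map]
  congr 1
  · refine List.flatMap_congr (fun r _ => ?_)
    rw [ty_eq w c r hc']
  · rw [top_eq w c hc']
    unfold lvW
    split_ifs <;> simp

/-- T11 -/
theorem t11 (h4 : T4Stmt) (h6 : T6Stmt) (h7 : T7Stmt) : T11Stmt := by
  intro sD
  have hv := sg_first
  have hm := ng_mOf
  have h1 : LG 2 (fun ρ : Fin 2 → List CL =>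
      (List.range (sysOfWord (((ρ ∘ Fin.succ) 0).filterMap Sum.getLeft?)).layout.N).flatMap
        (fun r => dWord (mOf ((ρ ∘ Fin.succ) 0).length) (sD (.tile
          (tyW (((ρ ∘ Fin.succ) 0).filterMap Sum.getLeft?) (ρ 0).length r))))) := by
    refine LG.loop (NG.up (ng_N h6 hv)) (K := fun r (ρ : Fin 2 → List CL) =>
      dWord (mOf ((ρ ∘ Fin.succ) 0).length) (sD (.tile
          (tyW (((ρ ∘ Fin.succ) 0).filterMap Sum.getLeft?) (ρ 0).length r)))) ?_
    have hv3 := SG.up (SG.up hv)
    have hc3 : NG 3 (fun ρ : Fin 3 → List CL => ((ρ ∘ Fin.succ) 0).length) := NG.up NG.len0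
    exact fg_ty h6 h7 hv3 hc3 NG.len0 (fun t (ρ : Fin 3 → List CL) =>
      (dWord (mOf (((ρ ∘ Fin.succ) ∘ Fin.succ) 0).length) (sD (.tile t))).map Sum.inr)
      (fun t => LG.dWord h4 (NG.up (NG.up hm)) (sD (.tile t)))
  have h2 : LG 2 (fun ρ : Fin 2 → List CL => lvW (mOf ((ρ ∘ Fin.succ) 0).length) sD
      (topW (((ρ ∘ Fin.succ) 0).filterMap Sum.getLeft?) (ρ 0).length)) := by
    refine fg_top h6 (SG.up hv) NG.len0 (fun t (ρ : Fin 2 → List CL) =>
      (lvW (mOf ((ρ ∘ Fin.succ) 0).length) sD t).map Sum.inr) (fun t => ?_)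
    unfold lvW
    by_cases h : t.isL = true
    · simp only [h, if_true]
      exact LG.dWord h4 (NG.up hm) _
    · simp only [h]
      exact LG.const []
  refine PGen.congr (LG.loop (ng_M h6 hv) (K := fun c (ρ : Fin 1 → List CL) =>
    (List.range (sysOfWord ((ρ 0).filterMap Sum.getLeft?)).layout.N).flatMap
        (fun r => dWord (mOf (ρ 0).length) (sD (.tile
          (tyW ((ρ 0).filterMap Sum.getLeft?) c r)))) ++
      lvW (mOf (ρ 0).length) sD (topW ((ρ 0).filterMap Sum.getLeft?) c))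
    (LG.append h1 h2)) (fun ρ => ?_)
  unfold sysAt
  rw [shapes_eq]

end Pool.Agent.Helper91_Pack
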