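import Pool.Agent.Helper91_Pack.Lib

/-!
# T3: the binary digits of a number in unary
-/

namespace Pool.Agent.Helper91_Pack

open Pool.Agent.Helper2_Pack Pool.Agent.Helper53_CookLevin Pool.Agent.Helper53_Chan

variable {k : ℕ}

theorem pow2_iff (d : ℕ) (hd : 0 < d) : (∀ a < d + 1, ∀ b < d + 1, ¬ (a * b = d ∧ a % 2 = 1 ∧ a ≠ 1)) ↔
    ∃ j, d = 2 ^ j := by
  constructor
  · intro h
    rcases Nat.eq_two_pow_or_exists_odd_prime_and_dvd d with h1 | ⟨p, hp, ⟨b, hb⟩, ho⟩
    · exact h1
    · exfalso
      have hb0 : 0 < b := by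
        rcases Nat.eq_zero_or_pos b with h0 | h0
        · rw [h0, Nat.mul_zero] at hb
          omega
        · exact h0
      have hp0 := hp.pos
      have h2 : p ≤ d := by
        rw [hb]
        exact Nat.le_mul_of_pos_right _ hb0
      have h3 : b ≤ d := by
        rw [hb]
        exact Nat.le_mul_of_pos_left _ hp0
      exact h p (by omega) b (by omega) ⟨hb.symm, Nat.odd_iff.1 ho, hp.one_lt.ne'⟩
  · rintro ⟨j, rfl⟩ a _ b _ ⟨h1, h2, h3⟩
    have h4 : a ∣ 2 ^ j := ⟨b, h1.symm⟩
    obtain ⟨i, _, hi⟩ := (Nat.dvd_prime_pow Nat.prime_two).1 h4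
    rcases i with _ | i
    · exact h3 (by simpa using hi)
    · rw [hi, pow_succ] at h2
      omega

/-- powers of two can be tested -/
theorem tpow {e : (Fin k → List CL) → ℕ} (he : NG k e) :
    Test k (fun ρ => ∀ a < e ρ + 1, ∀ b < e ρ + 1, ¬ (a * b = e ρ ∧ a % 2 = 1 ∧ a ≠ 1)) := by
  have he1 := NG.add he (NG.const 1)
  refine tall he1 (P := fun a ρ => ∀ b < e ρ + 1, ¬ (a * b = e ρ ∧ a % 2 = 1 ∧ a ≠ 1)) ?_
  refine tall (NG.up he1) (P := fun b (ρ : Fin (k + 1) → List CL) =>
    ¬ ((ρ 0).length * b = e (ρ ∘ Fin.succ) ∧ (ρ 0).length % 2 = 1 ∧ (ρ 0).length ≠ 1)) ?_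
  have h0 : NG (k + 2) (fun ρ : Fin (k + 2) → List CL => (ρ 0).length) := NG.len0
  have h1 : NG (k + 2) (fun ρ : Fin (k + 2) → List CL => ((ρ ∘ Fin.succ) 0).length) :=
    NG.up NG.len0
  exact tnot (Test.and (teq (NG.mul h1 h0) (NG.up (NG.up he))) (Test.and (teq (NG.mod h1
    (NG.const 2)) (NG.const 1)) (tnot (teq h1 (NG.const 1)))))

open Classical in
theorem range_pow (f : ℕ → List CL) : ∀ n : ℕ,
    (List.range n).flatMap (fun i => if ∃ j, i + 1 = 2 ^ j then f (i + 1) else []) =
      (List.range (Nat.size n)).flatMap (fun j => f (2 ^ j)) := by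
  classical
  intro n
  induction n with
  | zero => rfl
  | succ n ih =>
    have e1 : (List.range (n + 1)).flatMap (fun i => if ∃ j, i + 1 = 2 ^ j then f (i + 1) else []) =
        (List.range n).flatMap (fun i => if ∃ j, i + 1 = 2 ^ j then f (i + 1) else []) ++
        (if ∃ j, n + 1 = 2 ^ j then f (n + 1) else []) := by
      rw [List.range_succ, List.flatMap_append]
      simp
    rw [e1, ih]
    by_cases h : ∃ j, n + 1 = 2 ^ j
    · rw [if_pos h]
      obtain ⟨j, hj⟩ := h
      have h1 : Nat.size (n + 1) = j + 1 := by rw [hj]; exact Nat.size_pow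
      have h2 : Nat.size n = j := by
        apply le_antisymm
        · rw [Nat.size_le]
          omega
        · rcases j with _ | j
          · omega
          · refine Nat.lt_size.2 ?_
            rw [pow_succ] at hj
            have : 0 < 2 ^ j := by positivity
            omega
      rw [h1, h2, List.range_succ, List.flatMap_append, hj]
      simp
    · rw [if_neg h, List.append_nil]
      have h1 : Nat.size (n + 1) = Nat.size n := by
        apply le_antisymm
        · rw [Nat.size_le]
          have h2 := Nat.lt_size_self n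
          rcases Nat.lt_or_ge (n + 1) (2 ^ Nat.size n) with h3 | h3
          · exact h3
          · exact absurd ⟨Nat.size n, by omega⟩ h
        · exact Nat.size_le_size (Nat.le_succ n)
      rw [h1]

/-- a digit -/
def dg (b : ℕ) : Letter := if b = 0 then .zero else .one

theorem bits_eq (n : ℕ) : bits n = (List.range (Nat.size n)).map (fun j => dg (n / 2 ^ j % 2)) := by
  unfold bits
  have hlen : (Nat.digits 2 n).length = Nat.size n := by
    rcases Nat.eq_zero_or_pos n with h | h
    · subst h
      simp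
    · rw [Nat.length_digits 2 n (by norm_num) h.ne']
      apply le_antisymm
      · refine Nat.lt_size.2 ?_
        exact Nat.pow_log_le_self 2 h.ne'
      · rw [Nat.size_le]
        exact Nat.lt_pow_succ_log_self (by norm_num) n
  apply List.ext_getElem
  · rw [List.length_map, List.length_map, List.length_range, hlen]
  · intro i h1 h2
    rw [List.getElem_map, List.getElem_map, List.getElem_range]
    rw [List.length_map] at h1
    have h3 := Nat.getD_digits n i (b := 2) le_rfl
    rw [List.getD_eq_getElem _ _ h1] at h3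
    rw [h3]
    rfl

open Classical in
theorem bits_flatMap (n : ℕ) : (bits n).map (Sum.inr : Letter → CL) =
    (List.range n).flatMap (fun i => if ∃ j, i + 1 = 2 ^ j then
      [Sum.inr (dg (n / (i + 1) % 2))] else []) := by
  rw [range_pow (fun d => [Sum.inr (dg (n / d % 2))]) n, bits_eq, List.map_map,
    List.map_eq_flatMap]
  rfl

theorem NG.bits {e : (Fin k → List CL) → ℕ} (he : NG k e) :
    PGen k (fun ρ => (bits (e ρ)).map Sum.inr) := by
  classical
  have h0 : NG (k + 1) (fun ρ : Fin (k + 1) → List CL => (ρ 0).length + 1) :=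
    NG.add NG.len0 (NG.const 1)
  have h1 : PGen (k + 1) (fun ρ : Fin (k + 1) → List CL =>
      if ∃ j, (ρ 0).length + 1 = 2 ^ j then
        [Sum.inr (dg (e (ρ ∘ Fin.succ) / ((ρ 0).length + 1) % 2))] else []) := by
    refine Test.ite ?_ ?_ (PGen.const _)
    · exact Test.congr (tpow h0) (fun ρ => pow2_iff _ (Nat.succ_pos _))
    · refine PGen.congr (Test.ite (P := fun ρ : Fin (k + 1) → List CL =>
        e (ρ ∘ Fin.succ) / ((ρ 0).length + 1) % 2 = 0)
        (teq (NG.mod (NG.div (NG.up he) h0) (NG.const 2)) (NG.const 0))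
        (PGen.const [Sum.inr .zero]) (PGen.const [Sum.inr .one])) (fun ρ => ?_)
      unfold dg
      split_ifs <;> rfl
  refine PGen.congr (loopN he (K := fun i ρ => if ∃ j, i + 1 = 2 ^ j then
      [Sum.inr (dg (e ρ / (i + 1) % 2))] else []) h1) (fun ρ => ?_)
  rw [bits_flatMap]

/-- T3 -/
theorem t3 : T3Stmt := fun _ _ he => NG.bits he

end Pool.Agent.Helper91_Pack
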