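import Pool.Agent.Helper91_Pack.Lib

/-!
# T4: the word of a descriptor
-/

namespace Pool.Agent.Helper91_Pack

open Pool.Agent.Helper2_Pack Pool.Agent.Helper53_CookLevin Pool.Agent.Helper53_Chan

variable {k : ℕ}

/-- words over the letters of instances -/
def LG (k : ℕ) (w : (Fin k → List CL) → List Letter) : Prop :=
  PGen k (fun ρ => (w ρ).map Sum.inr)

theorem LG.append {v w : (Fin k → List CL) → List Letter} (hv : LG k v) (hw : LG k w) :
    LG k (fun ρ => v ρ ++ w ρ) :=
  PGen.congr (PGen.append hv hw) (fun ρ => by rw [List.map_append])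

theorem LG.const (w : List Letter) : LG k (fun _ => w) := PGen.const _

theorem LG.cons (a : Letter) {w : (Fin k → List CL) → List Letter} (hw : LG k w) :
    LG k (fun ρ => a :: w ρ) := LG.append (LG.const [a]) hw

theorem LG.rep (a : Letter) {e : (Fin k → List CL) → ℕ} (he : NG k e) :
    LG k (fun ρ => List.replicate (e ρ) a) := by
  refine PGen.congr (loopN he (K := fun _ _ => [Sum.inr a]) (PGen.const _)) (fun ρ => ?_)
  have := flatMap_replicate (Sum.inr a : CL) 1 (e ρ)
  rw [Nat.mul_one] at this
  rw [List.map_replicate, ← this]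
  rfl

/-- T4 -/
theorem t4 (h3 : T3Stmt) : T4Stmt := by
  intro k d e m he hm
  have h0 : LG k (fun ρ => bits (d.c + e ρ)) := h3 k _ (NG.add (NG.const d.c) he)
  have hm : NG k m := hm
  have hr : ∀ c : ℕ, LG k (fun ρ => List.replicate (m ρ - c) Letter.zero) :=
    fun c => LG.rep _ (NG.sub hm (NG.const c))
  have h2 : LG k (fun ρ => List.replicate (2 * m ρ - 10) Letter.zero) :=
    LG.rep _ (NG.sub (NG.mul (NG.const 2) hm) (NG.const 10))
  have h5 : LG k (fun ρ => List.replicate (5 * m ρ) Letter.zero) :=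
    LG.rep _ (NG.mul (NG.const 5) hm)
  exact LG.cons _ (LG.append (LG.append (LG.append (LG.append (LG.append (LG.append (LG.append
    (LG.append (LG.append (LG.append (LG.const [.one]) (hr 1)) (LG.const (fixW 5 d.k4))) (hr 5))
    (LG.const (fixW 5 d.k3))) h2) (LG.const (fixW 10 (32 * d.k1 + d.a2)))) (hr 10))
    (LG.const (fixW 5 d.a))) h0) (LG.cons _ (LG.append h5 (LG.const _))))

end Pool.Agent.Helper91_Pack
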