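import Pool.Agent.Helper91_Pack.Lib

/-!
# T6: generators for the parts of the word of a system
-/

namespace Pool.Agent.Helper91_Pack

open Pool.Agent.Helper2_Pack Pool.Agent.Helper53_CookLevin Pool.Agent.Helper53_Chan

variable {k : ℕ}

theorem SG.len {v : (Fin k → List CL) → List SLetter} (hv : SG k v) :
    NG k (fun ρ => (v ρ).length) :=
  NG.congr (NG.len hv) (fun ρ => by rw [List.length_map])

/-! ### The number of variables -/

theorem takeWhile_snoc (v : List SLetter) (c : SLetter) :
    ((v ++ [c]).takeWhile (· == .tick)).length = (v.takeWhile (· == .tick)).length +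
      if ct (fun a => !(a == .tick)) (v ++ [c]) = 0 then 1 else 0 := by
  induction v with
  | nil =>
    rw [List.nil_append]
    unfold ct
    cases h : (c == SLetter.tick) <;> simp [h]
  | cons a v ih =>
    rw [List.cons_append, ct_cons]
    cases h : (a == SLetter.tick)
    · rw [List.takeWhile_cons_of_neg (by simp [h]), List.takeWhile_cons_of_neg (by simp [h])]
      simp
    · rw [List.takeWhile_cons_of_pos (by simp [h]), List.takeWhile_cons_of_pos (by simp [h]),
        List.length_cons, List.length_cons, ih]
      simp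
      omega

theorem SG.nOf {v : (Fin k → List CL) → List SLetter} (hv : SG k v) :
    NG k (fun ρ => nOf (v ρ)) := by
  classical
  have h1 : ∀ c : CL, PGen (k + 1) (fun ρ : Fin (k + 1) → List CL =>
      if Helper53_Chan.cnt (exS (fun a => !(a == .tick))) (ρ 0 ++ [c]) = 0 then [uu] else []) := by
    intro c
    refine Test.ite ?_ (PGen.const _) (PGen.const _)
    refine Test.congr (teq (PGen.cnt (exS (fun a => !(a == .tick))) uu
      (PGen.append (PGen.var 0) (PGen.const [c]))) (NG.const 0)) (fun ρ => Iff.rfl)
  refine PGen.congr (SG.loop hv (K := fun c p _ =>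
    if Helper53_Chan.cnt (exS (fun a => !(a == .tick))) (p ++ [c]) = 0 then [uu] else [])
    h1) (fun ρ => ?_)
  beta_reduce
  generalize v ρ = w
  unfold Helper2_Pack.nOf
  induction w using List.reverseRecOn with
  | nil => rfl
  | append_singleton w c ih =>
    rw [sc_snoc, ih, takeWhile_snoc, List.replicate_add]
    congr 1
    have e : w.map (Sum.inl : SLetter → CL) ++ [Sum.inl c] = (w ++ [c]).map Sum.inl := by simp
    rw [e, cnt_map_inl]
    split_ifs <;> rfl

theorem drop_take (v : List SLetter) :
    (v.dropWhile (· == .tick)).tail = v.drop (nOf v + 1) := by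
  unfold nOf
  induction v with
  | nil => rfl
  | cons a v ih =>
    cases h : (a == SLetter.tick)
    · rw [List.dropWhile_cons_of_neg (by simp [h]), List.takeWhile_cons_of_neg (by simp [h])]
      simp
    · rw [List.dropWhile_cons_of_pos (by simp [h]), List.takeWhile_cons_of_pos (by simp [h]), ih,
        List.length_cons, List.drop_succ_cons]

theorem SG.body {v : (Fin k → List CL) → List SLetter} (hv : SG k v) :
    SG k (fun ρ => bodyOf (v ρ)) := by
  refine PGen.congr (PGen.dropF hv (NG.add (SG.nOf hv) (NG.const 1))) (fun ρ => ?_)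
  beta_reduce
  unfold bodyOf
  rw [List.length_replicate, drop_take, List.map_drop]

/-! ### The constraints -/

theorem segs_length : ∀ (w u : List SLetter), (segsAux u w).length = ct isEnd w
  | [], u => rfl
  | a :: w, u => by
    rw [segsAux, ct_cons]
    by_cases h : isEnd a = true
    · rw [if_pos h, if_pos h, List.length_cons, segs_length w, Nat.add_comm]
    · rw [if_neg h, if_neg h, segs_length w, Nat.zero_add]

/-- the letters with `b` ends before -/
def pk (b : ℕ) : List SLetter → List SLetter → List CL :=
  sc (fun p c => if ct isEnd p = b then [Sum.inl c] else [])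

theorem pk_nil (b : ℕ) : ∀ (w p : List SLetter), b < ct isEnd p → pk b p w = []
  | [], p, _ => rfl
  | a :: w, p, h => by
    unfold pk
    rw [sc, if_neg (by omega)]
    exact pk_nil b w (p ++ [a]) (by rw [ct_snoc]; omega)

theorem pk_segs (b : ℕ) : ∀ (w p u : List SLetter), ct isEnd p ≤ b →
    ((segsAux u w).getD (b - ct isEnd p) []).map (Sum.inl : SLetter → CL) =
      if b < ct isEnd p + ct isEnd w then
        (if b = ct isEnd p then u.map Sum.inl else []) ++ pk b p w else []
  | [], p, u, h => by
    rw [if_neg (by
      have : ct isEnd [] = 0 := rfl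
      omega)]
    simp [segsAux]
  | a :: w, p, u, h => by
    have e : pk b p (a :: w) = (if ct isEnd p = b then [Sum.inl a] else []) ++
      pk b (p ++ [a]) w := rfl
    rw [segsAux, e, ct_cons]
    have hs := ct_snoc isEnd p a
    by_cases ha : isEnd a = true
    · rw [if_pos ha, if_pos ha]
      rw [if_pos ha] at hs
      by_cases hb : b = ct isEnd p
      · rw [if_pos (by omega), if_pos hb, if_pos hb.symm, pk_nil b w _ (by omega), ← hb,
          Nat.sub_self]
        simp
      · have h1 : b - ct isEnd p = (b - ct isEnd (p ++ [a])) + 1 := by omega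
        rw [h1, List.getD_cons_succ, pk_segs b w (p ++ [a]) [] (by omega), hs]
        by_cases h2 : b < ct isEnd p + (1 + ct isEnd w)
        · rw [if_pos (by omega), if_pos h2, if_neg (Ne.symm hb), if_neg hb]
          simp
        · rw [if_neg (by omega), if_neg h2]
    · rw [if_neg ha, if_neg ha]
      rw [if_neg ha, Nat.add_zero] at hs
      rw [← hs, pk_segs b w (p ++ [a]) (u ++ [a]) (by omega), Nat.zero_add]
      by_cases h2 : b < ct isEnd (p ++ [a]) + ct isEnd w
      · rw [if_pos h2, if_pos h2]
        by_cases hb : b = ct isEnd (p ++ [a])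
        · rw [if_pos hb, if_pos hb, if_pos hb.symm]
          simp
        · rw [if_neg hb, if_neg hb, if_neg (Ne.symm hb)]
          simp
      · rw [if_neg h2, if_neg h2]

theorem SG.seg {v : (Fin k → List CL) → List SLetter} (hv : SG k v)
    {b : (Fin k → List CL) → ℕ} (hb : NG k b) :
    SG k (fun ρ => (segsAux [] (v ρ)).getD (b ρ) []) := by
  classical
  have h1 : ∀ c : CL, PGen (k + 1) (fun ρ : Fin (k + 1) → List CL =>
      if Helper53_Chan.cnt (exS isEnd) (ρ 0) = b (ρ ∘ Fin.succ) then [c] else []) := by
    intro c
    refine Test.ite ?_ (PGen.const _) (PGen.const _)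
    exact teq (PGen.cnt (exS isEnd) uu (PGen.var 0)) (NG.up hb)
  refine PGen.congr (Test.ite (tlt hb (SG.ct hv isEnd)) (SG.loop hv (K := fun c p ρ =>
    if Helper53_Chan.cnt (exS isEnd) p = b ρ then [c] else []) h1) (PGen.const [])) (fun ρ => ?_)
  have h2 := pk_segs (b ρ) (v ρ) [] [] (Nat.zero_le _)
  have h3 : Helper91_Pack.ct isEnd [] = 0 := rfl
  rw [h3, Nat.sub_zero, Nat.zero_add] at h2
  rw [h2]
  congr 1
  have h4 : (if b ρ = 0 then ([] : List SLetter).map (Sum.inl : SLetter → CL) else []) = [] := by
    split_ifs <;> rfl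
  rw [h4, List.nil_append]
  unfold pk
  refine sc_congr (fun q c => ?_) _ _
  rw [cnt_map_inl]

/-- T6 -/
theorem t6 : T6Stmt := by
  intro k v hv
  refine ⟨SG.nOf hv, ?_, fun b hb => SG.seg (SG.body hv) hb⟩
  exact NG.congr (SG.ct (SG.body hv) isEnd) (fun ρ => (segs_length _ _).symm)

end Pool.Agent.Helper91_Pack
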