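import Pool.Agent.Helper91_Pack.T8
import Pool.Agent.Helper91_Pack.T4

/-!
# Generators for the layout of a system
-/

namespace Pool.Agent.Helper91_Pack

open Pool.Agent.Helper2_Pack Pool.Agent.Helper53_CookLevin Pool.Agent.Helper53_Chan

variable {k : ℕ}

/-! ### The layout of the system of a word -/

/-- the number of constraints of a word -/
def nSeg (w : List SLetter) : ℕ := (segsAux [] (bodyOf w)).length

/-- the word of the constraint of the column `c` -/
def segW (w : List SLetter) (c : ℕ) : List SLetter :=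
  (segsAux [] (bodyOf w)).getD (c / (2 * nOf w + 2) % nSeg w) []

/-- the sign of the column `c` -/
def sgW (w : List SLetter) (c : ℕ) : Bool := decide (nSeg w ≤ c / (2 * nOf w + 2))

/-- the tile in the cell `(c, r)` -/
def tyW (w : List SLetter) (c r : ℕ) : Tile :=
  blockTile (nOf w) (sgW w c) (conOf (segW w c)) (c % (2 * nOf w + 2)) r

/-- the ceiling above the column `c` -/
def topW (w : List SLetter) (c : ℕ) : Top :=
  blockTop (nOf w) (sgW w c) (conOf (segW w c)) (c % (2 * nOf w + 2))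

theorem lay_M (w : List SLetter) : (sysOfWord w).layout.M = 2 * nSeg w * (2 * nOf w + 2) := by
  show 2 * ((segsAux [] (bodyOf w)).map conOf).length * (2 * nOf w + 2) = _
  rw [List.length_map]
  rfl

theorem con_eq (w : List SLetter) (c : ℕ) (h : c < (sysOfWord w).layout.M) :
    (sysOfWord w).con c = conOf (segW w c) := by
  rw [lay_M] at h
  have h0 : 0 < nSeg w := by
    rcases Nat.eq_zero_or_pos (nSeg w) with h0 | h0
    · rw [h0] at h
      omega
    · exact h0
  have h1 : c / (2 * nOf w + 2) % nSeg w < (segsAux [] (bodyOf w)).length := Nat.mod_lt _ h0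
  show ((segsAux [] (bodyOf w)).map conOf).getD (c / (2 * nOf w + 2) %
    ((segsAux [] (bodyOf w)).map conOf).length) (.inv 0 1) = _
  rw [List.length_map]
  change ((segsAux [] (bodyOf w)).map conOf).getD (c / (2 * nOf w + 2) % nSeg w) (.inv 0 1) = _
  unfold segW
  rw [List.getD_eq_getElem _ _ (by rw [List.length_map]; exact h1), List.getD_eq_getElem _ _ h1,
    List.getElem_map]

theorem sig_eq (w : List SLetter) (c : ℕ) : (sysOfWord w).sig c = sgW w c := by
  show decide (((segsAux [] (bodyOf w)).map conOf).length ≤ c / (2 * nOf w + 2)) = _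
  rw [List.length_map]
  rfl

theorem ty_eq (w : List SLetter) (c r : ℕ) (h : c < (sysOfWord w).layout.M) :
    (sysOfWord w).layout.ty c r = tyW w c r := by
  show blockTile (nOf w) ((sysOfWord w).sig c) ((sysOfWord w).con c) (c % (2 * nOf w + 2)) r = _
  rw [con_eq w c h, sig_eq]
  rfl

theorem top_eq (w : List SLetter) (c : ℕ) (h : c < (sysOfWord w).layout.M) :
    (sysOfWord w).layout.top c = topW w c := by
  have h' : c < 2 * (sysOfWord w).cons.length * (2 * (sysOfWord w).n + 2) := h
  show (if c < 2 * (sysOfWord w).cons.length * (2 * (sysOfWord w).n + 2) then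
    blockTop (nOf w) ((sysOfWord w).sig c) ((sysOfWord w).con c) (c % (2 * nOf w + 2)) else _) = _
  rw [if_pos h', con_eq w c h, sig_eq]
  rfl

variable {v : (Fin k → List CL) → List SLetter} {c r : (Fin k → List CL) → ℕ}

theorem ng_nSeg (h6 : T6Stmt) (hv : SG k v) : NG k (fun ρ => nSeg (v ρ)) := (h6 k v hv).2.1

theorem ng_nOf (h6 : T6Stmt) (hv : SG k v) : NG k (fun ρ => nOf (v ρ)) := (h6 k v hv).1

theorem ng_wid (h6 : T6Stmt) (hv : SG k v) : NG k (fun ρ => 2 * nOf (v ρ) + 2) :=
  NG.add (NG.mul (NG.const 2) (ng_nOf h6 hv)) (NG.const 2)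

theorem ng_M (h6 : T6Stmt) (hv : SG k v) : NG k (fun ρ => (sysOfWord (v ρ)).layout.M) :=
  NG.congr (NG.mul (NG.mul (NG.const 2) (ng_nSeg h6 hv)) (ng_wid h6 hv)) (fun _ => (lay_M _).symm)

theorem ng_N (h6 : T6Stmt) (hv : SG k v) : NG k (fun ρ => (sysOfWord (v ρ)).layout.N) :=
  NG.add (NG.mul (NG.const 2) (ng_nOf h6 hv)) (NG.const 1)

theorem sg_seg (h6 : T6Stmt) (hv : SG k v) (hc : NG k c) : SG k (fun ρ => segW (v ρ) (c ρ)) :=
  (h6 k v hv).2.2 _ (NG.mod (NG.div hc (ng_wid h6 hv)) (ng_nSeg h6 hv))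

theorem fg_sig (h6 : T6Stmt) (hv : SG k v) (hc : NG k c) : FG k (fun ρ => sgW (v ρ) (c ρ)) :=
  FG.bool (tle (ng_nSeg h6 hv) (NG.div hc (ng_wid h6 hv)))

theorem fg_ty (h6 : T6Stmt) (h7 : T7Stmt) (hv : SG k v) (hc : NG k c) (hr : NG k r) :
    FG k (fun ρ => tyW (v ρ) (c ρ) (r ρ)) :=
  fg_blockTile h7 (sg_seg h6 hv hc) (ng_nOf h6 hv) (NG.mod hc (ng_wid h6 hv)) hr (fg_sig h6 hv hc)

theorem fg_top (h6 : T6Stmt) (hv : SG k v) (hc : NG k c) :
    FG k (fun ρ => topW (v ρ) (c ρ)) :=
  fg_blockTop (sg_seg h6 hv hc) (ng_nOf h6 hv) (NG.mod hc (ng_wid h6 hv)) (fg_sig h6 hv hc)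

/-! ### Words of lists of pairs of descriptors -/

/-- the word of a list of pairs of descriptors without the end mark -/
def pW (m : ℕ) (l : List (Dsc × Dsc)) : List Letter := l.flatMap fun d => d.1.word m ++ d.2.word m

/-- the word of a list of pairs of descriptors can be generated -/
def WG (k : ℕ) (m : (Fin k → List CL) → ℕ) (l : (Fin k → List CL) → List (Dsc × Dsc)) : Prop :=
  LG k (fun ρ => pW (m ρ) (l ρ))

variable {m : (Fin k → List CL) → ℕ}

theorem WG.congr {l l' : (Fin k → List CL) → List (Dsc × Dsc)} (h : WG k m l)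
    (hl : ∀ ρ, l ρ = l' ρ) : WG k m l' := by
  have : l = l' := funext hl
  rwa [← this]

theorem WG.append {l l' : (Fin k → List CL) → List (Dsc × Dsc)} (h : WG k m l)
    (h' : WG k m l') : WG k m (fun ρ => l ρ ++ l' ρ) :=
  PGen.congr (LG.append h h') (fun ρ => by
    unfold pW
    beta_reduce
    rw [List.flatMap_append])

theorem WG.list (h4 : T4Stmt) (hm : NG k m) {e f : (Fin k → List CL) → ℕ} (he : NG k e)
    (hf : NG k f) : ∀ l : List (Dsc × Dsc),
      WG k m (fun ρ => l.map fun d => (d.1.sh (e ρ), d.2.sh (f ρ)))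
  | [] => LG.const []
  | d :: l => by
    refine PGen.congr (LG.append (LG.append (h4 k d.1 e m he hm) (h4 k d.2 f m hf hm))
      (WG.list h4 hm he hf l)) (fun ρ => ?_)
    unfold pW
    beta_reduce
    rw [List.map_cons, List.flatMap_cons]

theorem WG.fg {α : Type} {f : (Fin k → List CL) → α} (hf : FG k f)
    {L : α → (Fin k → List CL) → List (Dsc × Dsc)} (hL : ∀ a, WG k m (L a)) :
    WG k m (fun ρ => L (f ρ) ρ) := hf (fun a ρ => (pW (m ρ) (L a ρ)).map Sum.inr) hL

theorem LG.loop {e : (Fin k → List CL) → ℕ} (he : NG k e)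
    {K : ℕ → (Fin k → List CL) → List Letter}
    (h : LG (k + 1) (fun ρ => K (ρ 0).length (ρ ∘ Fin.succ))) :
    LG k (fun ρ => (List.range (e ρ)).flatMap (fun i => K i ρ)) := by
  refine PGen.congr (loopN he (K := fun i ρ => (K i ρ).map Sum.inr) h) (fun ρ => ?_)
  rw [List.map_flatMap]

theorem WG.loop {e : (Fin k → List CL) → ℕ} (he : NG k e)
    {K : ℕ → (Fin k → List CL) → List (Dsc × Dsc)}
    (h : WG (k + 1) (fun ρ => m (ρ ∘ Fin.succ)) (fun ρ => K (ρ 0).length (ρ ∘ Fin.succ))) :
    WG k m (fun ρ => (List.range (e ρ)).flatMap (fun i => K i ρ)) := by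
  refine PGen.congr (LG.loop he (K := fun i ρ => pW (m ρ) (K i ρ)) h) (fun ρ => ?_)
  unfold pW
  beta_reduce
  rw [List.flatMap_assoc]

theorem reverse_loop {α : Type} (f : ℕ → List α) (n : ℕ) :
    ((List.range n).flatMap f).reverse = (List.range n).flatMap (fun i => (f (n - 1 - i)).reverse) := by
  have h : (List.range n).reverse = (List.range n).map (fun i => n - 1 - i) := by
    rw [List.range_eq_range', List.reverse_range', ← List.range_eq_range']
    apply List.map_congr_left
    intro i _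
    omega
  rw [List.reverse_flatMap, h, List.flatMap_map]
  rfl

theorem WG.revLoop {e : (Fin k → List CL) → ℕ} (he : NG k e)
    {K : ℕ → (Fin k → List CL) → List (Dsc × Dsc)}
    (h : WG (k + 1) (fun ρ => m (ρ ∘ Fin.succ)) (fun ρ =>
      (K (e (ρ ∘ Fin.succ) - 1 - (ρ 0).length) (ρ ∘ Fin.succ)).reverse)) :
    WG k m (fun ρ => ((List.range (e ρ)).flatMap (fun i => K i ρ)).reverse) :=
  WG.congr (WG.loop he (K := fun i ρ => (K (e ρ - 1 - i) ρ).reverse) h)
    (fun ρ => (reverse_loop (fun i => K i ρ) (e ρ)).symm)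

/-- the word of the system in the first variable -/
theorem sg_first : SG 1 (fun ρ : Fin 1 → List CL => (ρ 0).filterMap Sum.getLeft?) := by
  refine PGen.congr (PGen.loop (0 : Fin 1) (fun c _ => match c with
    | .inl a => [.inl a]
    | .inr _ => []) (fun c => by cases c <;> exact PGen.const _)) (fun ρ => ?_)
  beta_reduce
  generalize ρ 0 = w
  have : ∀ (w p : List CL), scan (fun (_ : List CL) c => (match c with
    | .inl a => [.inl a]
    | .inr _ => [] : List CL)) p w = (w.filterMap Sum.getLeft?).map Sum.inl := by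
    intro w
    induction w with
    | nil => intro p; rfl
    | cons c w ih =>
      intro p
      rw [scan, ih]
      cases c <;> rfl
  exact this w []

theorem ng_mOf : NG 1 (fun ρ : Fin 1 → List CL => mOf (ρ 0).length) := by
  have h1 : NG 1 (fun ρ : Fin 1 → List CL => (ρ 0).length) := NG.len (PGen.var 0)
  have h2 := NG.add (NG.mul (NG.const 2) h1) (NG.const 2)
  refine NG.congr (NG.add (NG.mul (NG.mul (NG.const 16) h1) (NG.mul h2 h2)) (NG.const 60))
    (fun ρ => ?_)
  unfold mOf
  rw [pow_two]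

end Pool.Agent.Helper91_Pack
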