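import Pool.Agent.Helper2_Pack.StmtsT

/-!
# More polynomial-time word generators: numbers in unary, tests, finite cases
-/

namespace Pool.Agent.Helper91_Pack

open Pool.Agent.Helper2_Pack Pool.Agent.Helper53_CookLevin Pool.Agent.Helper53_Chan

/-- numbers in unary -/
def NG (k : ℕ) (e : (Fin k → List CL) → ℕ) : Prop := PGen k (fun ρ => List.replicate (e ρ) uu)

variable {k : ℕ}

theorem NG.congr {e f : (Fin k → List CL) → ℕ} (h : NG k e) (he : ∀ ρ, e ρ = f ρ) : NG k f := by
  have : e = f := funext he
  rwa [← this]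

theorem NG.const (c : ℕ) : NG k (fun _ => c) := PGen.const _

theorem NG.add {e f : (Fin k → List CL) → ℕ} (he : NG k e) (hf : NG k f) :
    NG k (fun ρ => e ρ + f ρ) :=
  PGen.congr (PGen.append he hf) (fun ρ => by rw [List.replicate_add])

theorem NG.sub {e f : (Fin k → List CL) → ℕ} (he : NG k e) (hf : NG k f) :
    NG k (fun ρ => e ρ - f ρ) :=
  PGen.congr (PGen.dropF he hf) (fun ρ => by
    rw [List.length_replicate, List.drop_replicate])

theorem NG.len {F : (Fin k → List CL) → List CL} (hF : PGen k F) :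
    NG k (fun ρ => (F ρ).length) :=
  PGen.congr (PGen.cnt (fun _ => true) uu hF) (fun ρ => by
    unfold Helper53_Chan.cnt
    rw [List.filter_eq_self.2 (fun _ _ => rfl)])

theorem NG.len0 : NG (k + 1) (fun ρ => (ρ 0).length) := NG.len (PGen.var 0)

/-- weakening -/
theorem NG.up {e : (Fin k → List CL) → ℕ} (he : NG k e) :
    NG (k + 1) (fun ρ => e (ρ ∘ Fin.succ)) := PGen.rename Fin.succ he

/-- weakening -/
theorem pup {F : (Fin k → List CL) → List CL} (hF : PGen k F) :
    PGen (k + 1) (fun ρ => F (ρ ∘ Fin.succ)) := PGen.rename Fin.succ hF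

/-- loop over a range, with the length of the first variable -/
theorem loopN {e : (Fin k → List CL) → ℕ} (he : NG k e) {K : ℕ → (Fin k → List CL) → List CL}
    (h : PGen (k + 1) (fun ρ => K (ρ 0).length (ρ ∘ Fin.succ))) :
    PGen k (fun ρ => (List.range (e ρ)).flatMap (fun i => K i ρ)) := by
  refine PGen.congr (PGen.loopRange he (K := fun w ρ => K w.length ρ) h) (fun ρ => ?_)
  simp only [List.length_replicate]

/-- local definition of a number -/
theorem letN {e : (Fin k → List CL) → ℕ} (he : NG k e) {K : ℕ → (Fin k → List CL) → List CL}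
    (h : PGen (k + 1) (fun ρ => K (ρ 0).length (ρ ∘ Fin.succ))) :
    PGen k (fun ρ => K (e ρ) ρ) := by
  refine PGen.congr (PGen.letG he (K := fun w ρ => K w.length ρ) h) (fun ρ => ?_)
  simp only [List.length_replicate]

theorem NG.mul {e f : (Fin k → List CL) → ℕ} (he : NG k e) (hf : NG k f) :
    NG k (fun ρ => e ρ * f ρ) := by
  refine PGen.congr (loopN he (K := fun _ ρ => List.replicate (f ρ) uu) (NG.up hf)) (fun ρ => ?_)
  exact flatMap_replicate uu (f ρ) (e ρ)

/-! ### Tests -/

theorem tup {P : (Fin k → List CL) → Prop} (hP : Test k P) :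
    Test (k + 1) (fun ρ => P (ρ ∘ Fin.succ)) := by
  obtain ⟨T, hT, h⟩ := hP
  exact ⟨_, pup hT, fun ρ => h _⟩

theorem tnot {P : (Fin k → List CL) → Prop} (hP : Test k P) : Test k (fun ρ => ¬ P ρ) := by
  classical
  refine ⟨_, Test.ite hP (PGen.const [uu]) (PGen.const []), fun ρ => ?_⟩
  by_cases h : P ρ <;> simp [h]

theorem tor {P Q : (Fin k → List CL) → Prop} (hP : Test k P) (hQ : Test k Q) :
    Test k (fun ρ => P ρ ∨ Q ρ) :=
  Test.congr (tnot (Test.and (tnot hP) (tnot hQ))) (fun ρ => by tauto)

theorem tconst (p : Prop) : Test k (fun _ : Fin k → List CL => p) := by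
  classical
  by_cases h : p
  · exact ⟨_, PGen.const [], fun _ => by simp [h]⟩
  · exact ⟨_, PGen.const [uu], fun _ => by simp [h]⟩

theorem tle {e f : (Fin k → List CL) → ℕ} (he : NG k e) (hf : NG k f) :
    Test k (fun ρ => e ρ ≤ f ρ) :=
  Test.congr (Test.lenLe he hf) (fun ρ => by rw [List.length_replicate, List.length_replicate])

theorem tlt {e f : (Fin k → List CL) → ℕ} (he : NG k e) (hf : NG k f) :
    Test k (fun ρ => e ρ < f ρ) :=
  Test.congr (tle (NG.add he (NG.const 1)) hf) (fun _ => Nat.succ_le_iff)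

theorem teq {e f : (Fin k → List CL) → ℕ} (he : NG k e) (hf : NG k f) :
    Test k (fun ρ => e ρ = f ρ) :=
  Test.congr (Test.and (tle he hf) (tle hf he)) (fun ρ => by omega)

/-- bounded quantifier -/
theorem tall {e : (Fin k → List CL) → ℕ} (he : NG k e) {P : ℕ → (Fin k → List CL) → Prop}
    (h : Test (k + 1) (fun ρ => P (ρ 0).length (ρ ∘ Fin.succ))) :
    Test k (fun ρ => ∀ i < e ρ, P i ρ) := by
  classical
  refine ⟨_, loopN he (K := fun i ρ => if P i ρ then [] else [uu])
    (Test.ite h (PGen.const []) (PGen.const [uu])), fun ρ => ?_⟩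
  rw [List.flatMap_eq_nil_iff]
  refine ⟨fun h i hi => ?_, fun h i hi => ?_⟩
  · have := h i (List.mem_range.2 hi)
    by_contra hp
    rw [if_neg hp] at this
    cases this
  · rw [if_pos (h i (List.mem_range.1 hi))]

/-- bounded quantifier -/
theorem tex {e : (Fin k → List CL) → ℕ} (he : NG k e) {P : ℕ → (Fin k → List CL) → Prop}
    (h : Test (k + 1) (fun ρ => P (ρ 0).length (ρ ∘ Fin.succ))) :
    Test k (fun ρ => ∃ i < e ρ, P i ρ) :=
  Test.congr (tnot (tall he (P := fun i ρ => ¬ P i ρ) (tnot h))) (fun _ => by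
    push Not
    rfl)

theorem NG.ite {P : (Fin k → List CL) → Prop} [∀ ρ, Decidable (P ρ)]
    {e f : (Fin k → List CL) → ℕ} (hP : Test k P) (he : NG k e) (hf : NG k f) :
    NG k (fun ρ => if P ρ then e ρ else f ρ) :=
  PGen.congr (Test.ite hP he hf) (fun ρ => by
    by_cases h : P ρ <;> simp [h])

/-! ### Division -/

theorem count_div (a b n : ℕ) (hb : 0 < b) (hn : a / b ≤ n) :
    (List.range n).flatMap (fun i => if b * (i + 1) ≤ a then [uu] else []) =
      List.replicate (a / b) uu := by
  obtain ⟨d, rfl⟩ := Nat.exists_eq_add_of_le hn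
  rw [List.range_add, List.flatMap_append, List.flatMap_map]
  have h1 : (List.range (a / b)).flatMap (fun i => if b * (i + 1) ≤ a then [uu] else []) =
      (List.range (a / b)).flatMap (fun _ => [uu]) := by
    refine List.flatMap_congr (fun i hi => ?_)
    have hi' := List.mem_range.1 hi
    rw [if_pos]
    calc b * (i + 1) ≤ b * (a / b) := Nat.mul_le_mul_left _ hi'
      _ ≤ a := Nat.mul_div_le a b
  have h2 : (List.range d).flatMap (fun i => if b * (a / b + i + 1) ≤ a then [uu] else []) = [] := by
    rw [List.flatMap_eq_nil_iff]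
    intro i _
    rw [if_neg]
    intro h
    have := Nat.div_lt_iff_lt_mul hb |>.1 (Nat.lt_succ_self (a / b))
    have h3 : b * (a / b + 1) ≤ b * (a / b + i + 1) := Nat.mul_le_mul_left _ (by omega)
    rw [Nat.succ_eq_add_one, Nat.mul_comm] at this
    omega
  rw [h1, h2, List.append_nil]
  have := flatMap_replicate uu 1 (a / b)
  rw [Nat.mul_one] at this
  exact this

theorem NG.div {e f : (Fin k → List CL) → ℕ} (he : NG k e) (hf : NG k f) :
    NG k (fun ρ => e ρ / f ρ) := by
  classical
  have h1 : PGen k (fun ρ => (List.range (e ρ)).flatMap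
      (fun i => if f ρ * (i + 1) ≤ e ρ then [uu] else [])) :=
    loopN he (K := fun i ρ => if f ρ * (i + 1) ≤ e ρ then [uu] else [])
      (Test.ite (tle (NG.mul (NG.up hf) (NG.add NG.len0 (NG.const 1))) (NG.up he))
        (PGen.const _) (PGen.const _))
  refine PGen.congr (Test.ite (teq hf (NG.const 0)) (PGen.const []) h1) (fun ρ => ?_)
  by_cases h : f ρ = 0
  · simp only [h, if_true, Nat.div_zero, List.replicate_zero]
  · rw [if_neg h]
    exact count_div (e ρ) (f ρ) (e ρ) (by omega) (Nat.div_le_self _ _)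

theorem NG.mod {e f : (Fin k → List CL) → ℕ} (he : NG k e) (hf : NG k f) :
    NG k (fun ρ => e ρ % f ρ) :=
  NG.congr (NG.sub he (NG.mul hf (NG.div he hf))) (fun ρ => by
    have := Nat.div_add_mod (e ρ) (f ρ)
    omega)

/-! ### Finite cases -/

/-- functions whose values can be used for a case distinction -/
def FG {α : Type} (k : ℕ) (f : (Fin k → List CL) → α) : Prop :=
  ∀ G : α → (Fin k → List CL) → List CL, (∀ a, PGen k (G a)) → PGen k (fun ρ => G (f ρ) ρ)

theorem FG.const {α : Type} (a : α) : FG k (fun _ => a) := fun _ hG => hG a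

theorem FG.congr {α : Type} {f g : (Fin k → List CL) → α} (hf : FG k f) (h : ∀ ρ, f ρ = g ρ) :
    FG k g := by
  have : f = g := funext h
  rwa [← this]

theorem FG.map {α β : Type} (h : α → β) {f : (Fin k → List CL) → α} (hf : FG k f) :
    FG k (fun ρ => h (f ρ)) := fun G hG => hf (fun a => G (h a)) (fun a => hG (h a))

theorem FG.map₂ {α β γ : Type} (h : α → β → γ) {f : (Fin k → List CL) → α}
    {g : (Fin k → List CL) → β} (hf : FG k f) (hg : FG k g) :
    FG k (fun ρ => h (f ρ) (g ρ)) := fun G hG =>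
  hf (fun a ρ => G (h a (g ρ)) ρ) (fun a => hg (fun b => G (h a b)) (fun b => hG (h a b)))

theorem FG.ite {α : Type} {P : (Fin k → List CL) → Prop} [∀ ρ, Decidable (P ρ)]
    {f g : (Fin k → List CL) → α} (hP : Test k P) (hf : FG k f) (hg : FG k g) :
    FG k (fun ρ => if P ρ then f ρ else g ρ) := fun G hG => by
  refine PGen.congr (Test.ite hP (hf G hG) (hg G hG)) (fun ρ => ?_)
  by_cases h : P ρ <;> simp [h]

theorem FG.bool {P : (Fin k → List CL) → Prop} [∀ ρ, Decidable (P ρ)] (hP : Test k P) :
    FG k (fun ρ => decide (P ρ)) :=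
  FG.congr (FG.ite hP (FG.const true) (FG.const false)) (fun ρ => by
    by_cases h : P ρ <;> simp [h])

/-- a Boolean function which can be tested -/
theorem FG.boolT {f : (Fin k → List CL) → Bool} (hP : Test k (fun ρ => f ρ = true)) :
    FG k f :=
  FG.congr (FG.ite hP (FG.const true) (FG.const false)) (fun ρ => by
    cases h : f ρ <;> simp)

theorem FG.test {f : (Fin k → List CL) → Bool} (hf : FG k f) : Test k (fun ρ => f ρ = true) :=
  ⟨_, hf (fun b _ => if b then [] else [uu]) (fun _ => PGen.const _), fun ρ => by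
    cases h : f ρ <;> simp [h]⟩

/-- the last letter -/
theorem FG.last {F : (Fin k → List CL) → List CL} (hF : PGen k F) :
    FG k (fun ρ => (F ρ).getLast?) := fun G hG => by
  have h1 := PGen.letG hF (K := fun w ρ => G w.getLast? ρ)
    (PGen.caseLast (0 : Fin (k + 1)) (fun o ρ => G o (ρ ∘ Fin.succ)) (fun c => pup (hG c)))
  exact h1

theorem FG.dite {α : Type} {f : (Fin k → List CL) → α} (hf : FG k f)
    {P : α → (Fin k → List CL) → Prop} (hP : ∀ a, Test k (P a)) : Test k (fun ρ => P (f ρ) ρ) := by
  choose T hT h using hP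
  exact ⟨_, hf T hT, fun ρ => h _ _⟩

/-! ### Words over the letters of systems -/

/-- a scan over a word of letters of systems -/
def sc (g : List SLetter → SLetter → List CL) : List SLetter → List SLetter → List CL
  | _, [] => []
  | p, c :: v => g p c ++ sc g (p ++ [c]) v

theorem sc_append (g : List SLetter → SLetter → List CL) : ∀ (p v w : List SLetter),
    sc g p (v ++ w) = sc g p v ++ sc g (p ++ v) w
  | p, [], w => by simp [sc]
  | p, c :: v, w => by simp [sc, sc_append g (p ++ [c]) v w]

theorem sc_snoc (g : List SLetter → SLetter → List CL) (v : List SLetter) (c : SLetter) :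
    sc g [] (v ++ [c]) = sc g [] v ++ g v c := by
  rw [sc_append]
  simp [sc]

theorem scan_inl (f : List CL → CL → List CL) : ∀ (p v : List SLetter),
    scan f (p.map Sum.inl) (v.map Sum.inl) = sc (fun p c => f (p.map Sum.inl) (Sum.inl c)) p v
  | p, [] => rfl
  | p, c :: v => by
    rw [List.map_cons, scan, sc]
    have e : p.map (Sum.inl : SLetter → CL) ++ [Sum.inl c] = (p ++ [c]).map Sum.inl := by simp
    rw [e, scan_inl f (p ++ [c]) v]

theorem sc_congr {f g : List SLetter → SLetter → List CL} (h : ∀ q c, f q c = g q c) :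
    ∀ (p v : List SLetter), sc f p v = sc g p v
  | _, [] => rfl
  | p, c :: v => by rw [sc, sc, h, sc_congr h (p ++ [c]) v]

/-- words over the letters of systems -/
def SG (k : ℕ) (v : (Fin k → List CL) → List SLetter) : Prop :=
  PGen k (fun ρ => (v ρ).map Sum.inl)

theorem SG.up {v : (Fin k → List CL) → List SLetter} (hv : SG k v) :
    SG (k + 1) (fun ρ => v (ρ ∘ Fin.succ)) := PGen.rename Fin.succ hv

/-- loop over a word of letters of systems -/
theorem SG.loop {v : (Fin k → List CL) → List SLetter} (hv : SG k v)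
    {K : CL → List CL → (Fin k → List CL) → List CL}
    (h : ∀ c, PGen (k + 1) (fun ρ => K c (ρ 0) (ρ ∘ Fin.succ))) :
    PGen k (fun ρ => sc (fun p c => K (Sum.inl c) (p.map Sum.inl) ρ) [] (v ρ)) := by
  refine PGen.congr (PGen.loopG hv (K := K) h) (fun ρ => ?_)
  exact scan_inl (fun p c => K c p ρ) [] (v ρ)

/-- number of letters in a set -/
def ct (S : SLetter → Bool) (w : List SLetter) : ℕ := (w.filter S).length

theorem ct_snoc (S : SLetter → Bool) (w : List SLetter) (c : SLetter) :
    ct S (w ++ [c]) = ct S w + if S c then 1 else 0 := by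
  unfold ct
  rw [List.filter_append, List.length_append]
  congr 1
  cases h : S c <;> simp [h]

theorem ct_cons (S : SLetter → Bool) (w : List SLetter) (c : SLetter) :
    ct S (c :: w) = (if S c then 1 else 0) + ct S w := by
  unfold ct
  cases h : S c
  · simp [h]
  · simp [h, Nat.add_comm]

/-- extension of a set of letters -/
def exS (S : SLetter → Bool) : CL → Bool
  | .inl c => S c
  | .inr _ => false

theorem cnt_map_inl (S : SLetter → Bool) (w : List SLetter) :
    Helper53_Chan.cnt (exS S) (w.map Sum.inl) = ct S w := by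
  unfold Helper53_Chan.cnt ct
  rw [List.filter_map, List.length_map]
  rfl

theorem SG.ct {v : (Fin k → List CL) → List SLetter} (hv : SG k v) (S : SLetter → Bool) :
    NG k (fun ρ => ct S (v ρ)) :=
  PGen.congr (PGen.cnt (exS S) uu hv) (fun ρ => by rw [cnt_map_inl])

theorem tr_map_inl (w : List SLetter) :
    Helper53_Chan.tr uu (w.map Sum.inl) = w.foldl (fun k c => if c = .tick then k + 1 else 0) 0 := by
  unfold Helper53_Chan.tr
  rw [List.foldl_map]
  congr 1
  funext k c
  simp [uu]

end Pool.Agent.Helper91_Pack
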