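import Pool.Agent.Helper91_Pack.T7

/-!
# T8: generators which depend on the tile in a cell of a block
-/

namespace Pool.Agent.Helper91_Pack

open Pool.Agent.Helper2_Pack Pool.Agent.Helper53_CookLevin Pool.Agent.Helper53_Chan

variable {k : ℕ}

theorem fg_hcol (h7 : T7Stmt) {u : (Fin k → List CL) → List SLetter}
    {n o r : (Fin k → List CL) → ℕ} (hu : SG k u) (hn : NG k n) (ho : NG k o) (hr : NG k r)
    {σ : (Fin k → List CL) → Bool} (hσ : FG k σ) :
    FG k (fun ρ => hcol (n ρ) (σ ρ) (conOf (u ρ)) (o ρ) (r ρ)) := by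
  obtain ⟨h1, h2⟩ := h7 k u n o r hu hn ho hr
  exact FG.ite h1 (FG.const _) (FG.ite h2 (FG.map pcol hσ) (FG.const _))

theorem fg_blockTile (h7 : T7Stmt) {u : (Fin k → List CL) → List SLetter}
    {n o r : (Fin k → List CL) → ℕ} (hu : SG k u) (hn : NG k n) (ho : NG k o) (hr : NG k r)
    {σ : (Fin k → List CL) → Bool} (hσ : FG k σ) :
    FG k (fun ρ => blockTile (n ρ) (σ ρ) (conOf (u ρ)) (o ρ) (r ρ)) := by
  have a1 := fg_hcol h7 hu hn ho hr hσ
  have a3 := fg_hcol h7 hu hn ho (NG.add hr (NG.const 1)) hσ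
  have a4 := FG.boolT (h7 k u n o r hu hn ho hr).1
  have a2 : FG k (fun ρ => decide (0 < o ρ) && dcell (n ρ) (conOf (u ρ)) (o ρ - 1) (r ρ)) :=
    FG.map₂ and (FG.bool (tlt (NG.const 0) ho))
      (FG.boolT (h7 k u n _ r hu hn (NG.sub ho (NG.const 1)) hr).1)
  exact FG.map₂ (fun (a : Col × Bool) (b : Col × Bool) => mkTile a.1 a.2 b.1 b.2)
    (FG.map₂ Prod.mk a1 a2) (FG.map₂ Prod.mk a3 a4)

/-- the ceiling as a function of the last letter -/
def bt (σ : Bool) (l : Option SLetter) (a b : Bool) : Top :=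
  match l with
  | some .inv => if a then .portL σ else if b then .portR σ else .flat .zero 0
  | some .neg => if a then .flat (pcol σ) (sg σ * (-1)) else .flat .zero 0
  | some .zer => if a then .flat (pcol σ) (sg σ * 0) else .flat .zero 0
  | _ => if a then .flat (pcol σ) (sg σ * 1) else .flat .zero 0

theorem blockTop_eq (n : ℕ) (σ : Bool) (w : List SLetter) (o : ℕ) :
    blockTop n σ (conOf w) o = bt σ w.getLast? (decide (o = 2 * n)) (decide (o = 2 * n + 1)) := by
  unfold conOf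
  rcases w.getLast? with _ | a
  · simp [blockTop, bt]
  · cases a <;> simp [blockTop, bt]

theorem fg_blockTop {u : (Fin k → List CL) → List SLetter}
    {n o : (Fin k → List CL) → ℕ} (hu : SG k u) (hn : NG k n) (ho : NG k o)
    {σ : (Fin k → List CL) → Bool} (hσ : FG k σ) :
    FG k (fun ρ => blockTop (n ρ) (σ ρ) (conOf (u ρ)) (o ρ)) := by
  refine FG.congr (FG.map₂ (fun (a : Bool × Option SLetter) (b : Bool × Bool) =>
    bt a.1 a.2 b.1 b.2) (FG.map₂ Prod.mk hσ (SG.last hu))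
    (FG.map₂ Prod.mk (FG.bool (teq ho (NG.mul (NG.const 2) hn)))
      (FG.bool (teq ho (NG.add (NG.mul (NG.const 2) hn) (NG.const 1)))))) (fun ρ => ?_)
  exact (blockTop_eq _ _ _ _).symm

/-- T8 -/
theorem t8 (h7 : T7Stmt) : T8Stmt := by
  intro k u n o r σ F F' hu hn ho hr hF hF'
  exact ⟨fg_blockTile h7 hu hn ho hr (FG.const σ) F hF, fg_blockTop hu hn ho (FG.const σ) F' hF'⟩

end Pool.Agent.Helper91_Pack
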